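import Mathlib

namespace Pool.Agent.Lib_helper92.EW

open Finset

variable {F K : Type} [Field F] [Fintype F] [DecidableEq F] [Field K] [Fintype K] [Algebra F K]

/-- the map `x ↦ (Tr x, Tr (δ x))` -/
noncomputable def L (δ : K) : K →ₗ[F] F × F :=
  (Algebra.trace F K).prod ((Algebra.trace F K).comp (LinearMap.mulLeft F δ))

theorem L_surj (δ : K) (hδ : ∀ c : F, algebraMap F K c ≠ δ) : Function.Surjective (L (F := F) δ) := by
  rw [← LinearMap.range_eq_top]
  by_contra hne
  obtain ⟨φ, hφ, hle⟩ := Submodule.exists_le_ker_of_lt_top _ (lt_top_iff_ne_top.2 hne)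
  have hz : ∀ x : K, φ (L (F := F) δ x) = 0 := fun x => hle ⟨x, rfl⟩
  have hsplit : ∀ a b : F, φ (a, b) = a * φ (1, 0) + b * φ (0, 1) := by
    intro a b
    have h1 : ((a, b) : F × F) = a • (1, 0) + b • (0, 1) := by simp
    rw [h1, map_add, map_smul, map_smul, smul_eq_mul, smul_eq_mul]
  set α := φ (1, 0) with hα
  set β := φ (0, 1) with hβ
  have hnd := traceForm_nondegenerate F K
  have htr : ∀ x : K, Algebra.trace F K ((α • (1 : K) + β • δ) * x) = 0 := by
    intro x
    have h1 := hz x
    have h2 : L (F := F) δ x = (Algebra.trace F K x, Algebra.trace F K (δ * x)) := rfl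
    rw [h2, hsplit] at h1
    rw [add_mul, smul_mul_assoc, smul_mul_assoc, one_mul, map_add, map_smul, map_smul,
      smul_eq_mul, smul_eq_mul]
    linear_combination h1
  have h0 : α • (1 : K) + β • δ = 0 := by
    refine hnd.1 _ ?_
    intro x
    exact htr x
  by_cases hb : β = 0
  · have ha : α = 0 := by
      rw [hb, zero_smul, add_zero] at h0
      rcases smul_eq_zero.1 h0 with h | h
      · exact h
      · exact absurd h one_ne_zero
    apply hφ
    apply LinearMap.ext
    rintro ⟨a, b⟩
    rw [hsplit, ha, hb]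
    simp
  · apply hδ (-α / β)
    have h1 : β • δ = (-α) • (1 : K) := by
      rw [neg_smul]
      exact eq_neg_of_add_eq_zero_right h0
    have h2 : δ = (β⁻¹ * (-α)) • (1 : K) := by
      rw [mul_smul, ← h1, smul_smul, inv_mul_cancel₀ hb, one_smul]
    rw [h2, Algebra.algebraMap_eq_smul_one]
    congr 1
    field_simp

theorem card_K (h3 : Module.finrank F K = 3) : Fintype.card K = Fintype.card F ^ 3 := by
  rw [← h3]
  exact Module.card_eq_pow_finrank

theorem fib (h3 : Module.finrank F K = 3) (δ : K) (hδ : ∀ c : F, algebraMap F K c ≠ δ)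
    (h : F × F → ℝ) :
    ∑ x : K, h (Algebra.trace F K x, Algebra.trace F K (δ * x))
      = (Fintype.card F : ℝ) * ∑ y : F × F, h y := by
  classical
  have hs := L_surj (F := F) δ hδ
  set φ : K →+ F × F := (L (F := F) δ).toAddMonoidHom with hφ
  have hcard : ∀ y : F × F, #{g : K | φ g = y} = #{g : K | φ g = 0} := by
    intro y
    exact AddMonoidHom.card_fiber_eq_of_mem_range φ (hs y) (hs 0)
  have htot : Fintype.card K = ∑ y : F × F, #{g : K | φ g = y} := by
    have := Finset.card_eq_sum_card_fiberwise (f := fun g : K => φ g) (s := Finset.univ)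
      (t := (Finset.univ : Finset (F × F))) (by intro x _; simp)
    simpa using this
  have hk : #{g : K | φ g = 0} = Fintype.card F := by
    rw [Finset.sum_congr rfl (fun y _ => hcard y), Finset.sum_const, Finset.card_univ,
      Fintype.card_prod, card_K h3, smul_eq_mul] at htot
    have hq : 0 < Fintype.card F := Fintype.card_pos
    have h2 : Fintype.card F * Fintype.card F * Fintype.card F
        = Fintype.card F * Fintype.card F * #{g : K | φ g = 0} := by
      rw [← htot]; ring
    exact (Nat.eq_of_mul_eq_mul_left (Nat.mul_pos hq hq) h2).symm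
  have h1 : ∑ x : K, h (Algebra.trace F K x, Algebra.trace F K (δ * x)) = ∑ x : K, h (φ x) := rfl
  rw [h1, ← Finset.sum_fiberwise (s := (Finset.univ : Finset K)) (g := fun x : K => φ x)
    (f := fun x => h (φ x)), Finset.mul_sum]
  refine Finset.sum_congr rfl ?_
  intro y _
  have h2 : ∑ x ∈ ({x ∈ (Finset.univ : Finset K) | φ x = y} : Finset K), h (φ x)
      = ∑ x ∈ ({x ∈ (Finset.univ : Finset K) | φ x = y} : Finset K), h y := by
    refine Finset.sum_congr rfl ?_
    intro x hx
    rw [(Finset.mem_filter.1 hx).2]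
  rw [h2, Finset.sum_const, hcard y, hk, nsmul_eq_mul]

end Pool.Agent.Lib_helper92.EW
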