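import Mathlib
import Pool.Agent.Lib_helper92.EW.Fib

namespace Pool.Agent.Lib_helper92.EW

open Finset

/-- averaging over the fibres of a surjective homomorphism of finite groups -/
theorem sum_hom {A B : Type} [Group A] [Group B] [Fintype A] [Fintype B] [DecidableEq B]
    (φ : A →* B) (hs : Function.Surjective φ) (k : ℕ) (hk : Fintype.card A = k * Fintype.card B)
    (h : B → ℝ) : ∑ x : A, h (φ x) = (k : ℝ) * ∑ y : B, h y := by
  classical
  have hcard : ∀ y : B, #{g : A | φ g = y} = #{g : A | φ g = 1} := by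
    intro y
    exact MonoidHom.card_fiber_eq_of_mem_range φ (hs y) (hs 1)
  have htot : Fintype.card A = ∑ y : B, #{g : A | φ g = y} := by
    have := Finset.card_eq_sum_card_fiberwise (f := fun g : A => φ g) (s := Finset.univ)
      (t := (Finset.univ : Finset B)) (by intro x _; simp)
    simpa using this
  have hk' : #{g : A | φ g = 1} = k := by
    rw [Finset.sum_congr rfl (fun y _ => hcard y), Finset.sum_const, Finset.card_univ,
      smul_eq_mul, hk] at htot
    have hq : 0 < Fintype.card B := Fintype.card_pos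
    have h2 : Fintype.card B * k = Fintype.card B * #{g : A | φ g = 1} := by
      rw [← htot]; ring
    exact (Nat.eq_of_mul_eq_mul_left hq h2).symm
  rw [← Finset.sum_fiberwise (s := (Finset.univ : Finset A)) (g := fun x : A => φ x)
    (f := fun x => h (φ x)), Finset.mul_sum]
  refine Finset.sum_congr rfl ?_
  intro y _
  have h2 : ∑ x ∈ ({x ∈ (Finset.univ : Finset A) | φ x = y} : Finset A), h (φ x)
      = ∑ x ∈ ({x ∈ (Finset.univ : Finset A) | φ x = y} : Finset A), h y := by
    refine Finset.sum_congr rfl ?_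
    intro x hx
    rw [(Finset.mem_filter.1 hx).2]
  rw [h2, Finset.sum_const, hcard y, hk', nsmul_eq_mul]

section

variable (F K : Type) [Field F] [Fintype F] [DecidableEq F] [Field K] [Fintype K] [DecidableEq K]
  [Algebra F K]

/-- the image of `Fˣ` in `Kˣ` -/
noncomputable def S : Subgroup Kˣ := (Units.map (algebraMap F K : F →* K)).range

/-- the quotient `Kˣ / Fˣ` -/
abbrev Q := Kˣ ⧸ S F K

noncomputable instance instFintypeQ : Fintype (Q F K) := Fintype.ofFinite _

theorem card_Q (h3 : Module.finrank F K = 3) :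
    Fintype.card (Q F K) = Fintype.card F ^ 2 + Fintype.card F + 1 ∧
    Fintype.card Kˣ = (Fintype.card F - 1) * Fintype.card (Q F K) := by
  classical
  have h1 := Subgroup.card_eq_card_quotient_mul_card_subgroup (S F K)
  have hS : Nat.card (S F K) = Fintype.card F - 1 := by
    have hinj : Function.Injective (Units.map (algebraMap F K : F →* K)) :=
      Units.map_injective (algebraMap F K).injective
    have h2 : Nat.card (S F K) = Nat.card Fˣ := by
      exact (Nat.card_congr (MonoidHom.ofInjective hinj).toEquiv).symm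
    rw [h2, Nat.card_eq_fintype_card, Fintype.card_units]
  have hK : Nat.card Kˣ = Fintype.card F ^ 3 - 1 := by
    rw [Nat.card_eq_fintype_card, Fintype.card_units, card_K h3]
  have hQ : Nat.card (Q F K) = Fintype.card (Q F K) := Nat.card_eq_fintype_card
  have hq : 1 < Fintype.card F := Fintype.one_lt_card
  have h4 : Fintype.card (Q F K) * (Fintype.card F - 1) = Fintype.card F ^ 3 - 1 := by
    rw [← hQ, ← hS, ← hK]
    exact h1.symm
  constructor
  · obtain ⟨m, hm⟩ : ∃ m, Fintype.card F = m + 2 := ⟨Fintype.card F - 2, by omega⟩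
    rw [hm] at h4 ⊢
    have h5 : m + 2 - 1 = m + 1 := by omega
    rw [h5] at h4
    have h6 : (m + 2) ^ 3 - 1 = ((m + 2) ^ 2 + (m + 2) + 1) * (m + 1) := by
      have : (m + 2) ^ 3 = ((m + 2) ^ 2 + (m + 2) + 1) * (m + 1) + 1 := by ring
      omega
    rw [h6] at h4
    exact Nat.eq_of_mul_eq_mul_right (by omega) h4
  · have h7 : Fintype.card Kˣ = Fintype.card F ^ 3 - 1 := by
      rw [← hK, Nat.card_eq_fintype_card]
    rw [h7, ← h4, mul_comm]

variable {F K}

/-- the function `x ↦ φ (Tr x^2)` on the quotient -/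
noncomputable def fQ (φ : F → ℝ) (hφ : ∀ c : F, c ≠ 0 → ∀ t, φ (c ^ 2 * t) = φ t) : Q F K → ℝ :=
  Quotient.lift (fun x : Kˣ => φ (Algebra.trace F K ((x : K) ^ 2))) (by
    intro x y hxy
    have h1 : x⁻¹ * y ∈ S F K := QuotientGroup.leftRel_apply.1 hxy
    obtain ⟨c, hc⟩ := h1
    have h2 : (y : K) = algebraMap F K (c : F) * (x : K) := by
      have h3 : y = x * (Units.map (algebraMap F K : F →* K)) c := by
        rw [hc]; group
      rw [h3]
      simp [mul_comm]
    show φ (Algebra.trace F K ((x : K) ^ 2)) = φ (Algebra.trace F K ((y : K) ^ 2))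
    have h4 : Algebra.trace F K ((y : K) ^ 2) = (c : F) ^ 2 * Algebra.trace F K ((x : K) ^ 2) := by
      rw [h2, mul_pow, ← map_pow, ← Algebra.smul_def, map_smul, smul_eq_mul]
    rw [h4, hφ _ c.ne_zero])

/-- the function `x ↦ φ (Tr x) φ (Tr δ x)` on the quotient -/
noncomputable def HQ (φ : F → ℝ)
    (hφ : ∀ c : F, c ≠ 0 → ∀ t s, φ (c * t) * φ (c * s) = φ t * φ s) (δ : K) : Q F K → ℝ :=
  Quotient.lift (fun x : Kˣ => φ (Algebra.trace F K (x : K)) * φ (Algebra.trace F K (δ * (x : K))))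
    (by
    intro x y hxy
    have h1 : x⁻¹ * y ∈ S F K := QuotientGroup.leftRel_apply.1 hxy
    obtain ⟨c, hc⟩ := h1
    have h2 : (y : K) = algebraMap F K (c : F) * (x : K) := by
      have h3 : y = x * (Units.map (algebraMap F K : F →* K)) c := by
        rw [hc]; group
      rw [h3]
      simp [mul_comm]
    show φ (Algebra.trace F K (x : K)) * φ (Algebra.trace F K (δ * (x : K)))
      = φ (Algebra.trace F K (y : K)) * φ (Algebra.trace F K (δ * (y : K)))
    have h4 : Algebra.trace F K (y : K) = (c : F) * Algebra.trace F K (x : K) := by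
      rw [h2, ← Algebra.smul_def, map_smul, smul_eq_mul]
    have h5 : Algebra.trace F K (δ * (y : K)) = (c : F) * Algebra.trace F K (δ * (x : K)) := by
      have : δ * (y : K) = algebraMap F K (c : F) * (δ * (x : K)) := by rw [h2]; ring
      rw [this, ← Algebra.smul_def, map_smul, smul_eq_mul]
    rw [h4, h5, hφ _ c.ne_zero])

theorem sum_units (k : K → ℝ) : ∑ x : Kˣ, k (x : K) = (∑ x : K, k x) - k 0 := by
  classical
  have h1 : ∑ x : K, k x = k 0 + ∑ x ∈ (Finset.univ : Finset K).erase 0, k x := by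
    rw [add_comm, Finset.sum_erase_add _ _ (Finset.mem_univ _)]
  rw [h1, add_sub_cancel_left]
  refine Finset.sum_bij (fun (x : Kˣ) _ => (x : K)) ?_ ?_ ?_ ?_
  · intro x _
    simp
  · intro x _ y _ hxy
    exact Units.ext hxy
  · intro y hy
    have hy0 : y ≠ 0 := (Finset.mem_erase.1 hy).1
    exact ⟨Units.mk0 y hy0, Finset.mem_univ _, rfl⟩
  · intro x _
    rfl

theorem corr (h3 : Module.finrank F K = 3) (φ : F → ℝ)
    (hφ1 : ∀ c : F, c ≠ 0 → ∀ t, φ (c ^ 2 * t) = φ t)
    (hφ2 : ∀ c : F, c ≠ 0 → ∀ t s, φ (c * t) * φ (c * s) = φ t * φ s)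
    (g : Q F K) (hg : g ≠ 1) :
    ((Fintype.card F : ℝ) - 1) * ∑ p : Q F K, fQ φ hφ1 p * fQ φ hφ1 (p * g)
      = (Fintype.card F : ℝ) * (∑ t : F, φ t) ^ 2 - φ 0 ^ 2 := by
  classical
  obtain ⟨hQ1, hQ2⟩ := card_Q F K h3
  obtain ⟨γ, rfl⟩ := QuotientGroup.mk_surjective g
  have hodd : (Nat.card (Q F K)).Coprime 2 := by
    rw [Nat.card_eq_fintype_card, hQ1, Nat.coprime_two_right]
    have : Even (Fintype.card F ^ 2 + Fintype.card F) := by
      have := Nat.even_mul_succ_self (Fintype.card F)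
      have h8 : Fintype.card F ^ 2 + Fintype.card F
        = Fintype.card F * (Fintype.card F + 1) := by ring
      rw [h8]; exact this
    exact Even.add_one this
  -- step 1
  have h1 : ∀ p : Q F K, fQ φ hφ1 p * fQ φ hφ1 (p * (QuotientGroup.mk γ))
      = HQ φ hφ2 ((γ : K) ^ 2) (p ^ 2) := by
    intro p
    obtain ⟨x, rfl⟩ := QuotientGroup.mk_surjective p
    show φ (Algebra.trace F K ((x : K) ^ 2)) * φ (Algebra.trace F K (((x * γ : Kˣ) : K) ^ 2))
      = φ (Algebra.trace F K (((x ^ 2 : Kˣ) : K)))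
        * φ (Algebra.trace F K ((γ : K) ^ 2 * (((x ^ 2 : Kˣ) : K))))
    have e1 : (((x * γ : Kˣ) : K) ^ 2) = (γ : K) ^ 2 * (((x ^ 2 : Kˣ) : K)) := by
      push_cast
      ring
    have e2 : (((x ^ 2 : Kˣ) : K)) = (x : K) ^ 2 := by push_cast; ring
    rw [e1, e2]
  have h2 : ∑ p : Q F K, fQ φ hφ1 p * fQ φ hφ1 (p * (QuotientGroup.mk γ))
      = ∑ p : Q F K, HQ φ hφ2 ((γ : K) ^ 2) p := by
    rw [Finset.sum_congr rfl (fun p _ => h1 p)]
    exact Equiv.sum_comp (powCoprime hodd) (fun p => HQ φ hφ2 ((γ : K) ^ 2) p)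
  rw [h2]
  -- step 2
  have h5 : 1 ≤ Fintype.card F := Fintype.card_pos
  have h4 := sum_hom (QuotientGroup.mk' (S F K)) (QuotientGroup.mk'_surjective _)
    (Fintype.card F - 1) hQ2 (fun p => HQ φ hφ2 ((γ : K) ^ 2) p)
  rw [Nat.cast_sub h5, Nat.cast_one] at h4
  rw [← h4]
  have h6 : ∑ x : Kˣ, HQ φ hφ2 ((γ : K) ^ 2) ((QuotientGroup.mk' (S F K)) x)
      = ∑ x : Kˣ, (fun z : K => φ (Algebra.trace F K z)
        * φ (Algebra.trace F K ((γ : K) ^ 2 * z))) (x : K) := rfl
  rw [h6]
  have h9 := sum_units (K := K) (fun z : K => φ (Algebra.trace F K z)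
        * φ (Algebra.trace F K ((γ : K) ^ 2 * z)))
  refine Eq.trans (Eq.trans (Finset.sum_congr rfl (fun _ _ => rfl)) h9) ?_
  have hδ : ∀ c : F, algebraMap F K c ≠ (γ : K) ^ 2 := by
    intro c hc
    have hc0 : c ≠ 0 := by
      rintro rfl
      rw [map_zero] at hc
      exact pow_ne_zero 2 γ.ne_zero hc.symm
    have hmem : γ ^ 2 ∈ S F K := by
      refine ⟨Units.mk0 c hc0, ?_⟩
      apply Units.ext
      simp [hc]
    have hone : ((QuotientGroup.mk γ : Q F K)) ^ 2 = 1 := by
      have : (QuotientGroup.mk (γ ^ 2) : Q F K) = 1 := (QuotientGroup.eq_one_iff _).2 hmem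
      exact this
    apply hg
    have hinj := (powCoprime hodd).injective
    apply hinj
    show (QuotientGroup.mk γ : Q F K) ^ 2 = 1 ^ 2
    rw [hone, one_pow]
  have h7 := fib h3 ((γ : K) ^ 2) hδ (fun y => φ y.1 * φ y.2)
  simp only at h7 ⊢
  rw [h7, map_zero, mul_zero, map_zero]
  have h8 : ∑ y : F × F, φ y.1 * φ y.2 = (∑ t : F, φ t) ^ 2 := by
    rw [Fintype.sum_prod_type, sq, Finset.sum_mul_sum]
  rw [h8]
  ring

end

end Pool.Agent.Lib_helper92.EW
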