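import Mathlib
import Pool.Agent.Lib_helper92.EW.Singer

namespace Pool.Agent.Lib_helper92.EW

open Finset

section

variable {F K : Type} [Field F] [Fintype F] [DecidableEq F] [Field K] [Fintype K] [DecidableEq K]
  [Algebra F K]

/-- the quadratic character as a real function -/
noncomputable def c1 (t : F) : ℝ := ((quadraticChar F t : ℤ) : ℝ)

/-- the indicator of zero -/
noncomputable def c2 (t : F) : ℝ := if t = 0 then 1 else 0

omit [Fintype F] in
theorem c2_a : ∀ c : F, c ≠ 0 → ∀ t : F, c2 (c ^ 2 * t) = c2 t := by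
  intro c hc t
  unfold c2
  simp [hc]

omit [Fintype F] in
theorem c2_b : ∀ c : F, c ≠ 0 → ∀ t s : F, c2 (c * t) * c2 (c * s) = c2 t * c2 s := by
  intro c hc t s
  unfold c2
  simp [hc]

theorem c1_b : ∀ c : F, c ≠ 0 → ∀ t s : F, c1 (c * t) * c1 (c * s) = c1 t * c1 s := by
  intro c hc t s
  unfold c1
  rw [map_mul, map_mul]
  have h1 := quadraticChar_sq_one hc
  have h2 : ((quadraticChar F c : ℤ) : ℝ) ^ 2 = 1 := by exact_mod_cast h1
  push_cast
  linear_combination (((quadraticChar F t : ℤ) : ℝ) * ((quadraticChar F s : ℤ) : ℝ)) * h2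

theorem c1_a : ∀ c : F, c ≠ 0 → ∀ t : F, c1 (c ^ 2 * t) = c1 t := by
  intro c hc t
  unfold c1
  rw [map_mul, map_pow]
  have h1 := quadraticChar_sq_one hc
  rw [h1, one_mul]

theorem c1_sum (hF : ringChar F ≠ 2) : ∑ t : F, c1 t = 0 := by
  unfold c1
  have := quadraticChar_sum_zero hF
  exact_mod_cast this

theorem c2_sum : ∑ t : F, c2 t = 1 := by
  unfold c2
  simp

theorem val_cases (t : F) :
    (c1 t + c2 t = 1 ∨ c1 t + c2 t = -1) ∧ (c1 t - c2 t = 1 ∨ c1 t - c2 t = -1) := by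
  unfold c1 c2
  by_cases ht : t = 0
  · subst ht
    simp
  · rcases quadraticChar_dichotomy ht with h | h
    · simp [ht, h]
    · simp [ht, h]

theorem singerQ (hF : ringChar F ≠ 2) (h3 : Module.finrank F K = 3) (g : Q F K) (hg : g ≠ 1) :
    ∑ p : Q F K, ((fQ c1 c1_a p + fQ c2 c2_a p) * (fQ c1 c1_a (p * g) + fQ c2 c2_a (p * g))
      + (fQ c1 c1_a p - fQ c2 c2_a p) * (fQ c1 c1_a (p * g) - fQ c2 c2_a (p * g))) = 2 := by
  have e1 := corr h3 (c1 : F → ℝ) c1_a c1_b g hg
  have e2 := corr h3 (c2 : F → ℝ) c2_a c2_b g hg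
  rw [c1_sum hF] at e1
  rw [c2_sum] at e2
  have z1 : (c1 (0 : F)) = 0 := by unfold c1; simp
  have z2 : (c2 (0 : F)) = 1 := by unfold c2; simp
  rw [z1] at e1
  rw [z2] at e2
  have hq : (1 : ℝ) < (Fintype.card F : ℝ) := by exact_mod_cast Fintype.one_lt_card
  have hq' : (Fintype.card F : ℝ) - 1 ≠ 0 := by linarith
  have f1 : ∑ p : Q F K, fQ c1 c1_a p * fQ c1 c1_a (p * g) = 0 := by
    have : ((Fintype.card F : ℝ) - 1) * ∑ p : Q F K, fQ c1 c1_a p * fQ c1 c1_a (p * g) = 0 := by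
      rw [e1]; ring
    rcases mul_eq_zero.1 this with h | h
    · exact absurd h hq'
    · exact h
  have f2 : ∑ p : Q F K, fQ c2 c2_a p * fQ c2 c2_a (p * g) = 1 := by
    have : ((Fintype.card F : ℝ) - 1) * ∑ p : Q F K, fQ c2 c2_a p * fQ c2 c2_a (p * g)
        = ((Fintype.card F : ℝ) - 1) * 1 := by
      rw [e2]; ring
    exact mul_left_cancel₀ hq' this
  have : ∀ p : Q F K, ((fQ c1 c1_a p + fQ c2 c2_a p) * (fQ c1 c1_a (p * g) + fQ c2 c2_a (p * g))
      + (fQ c1 c1_a p - fQ c2 c2_a p) * (fQ c1 c1_a (p * g) - fQ c2 c2_a (p * g)))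
      = 2 * (fQ c1 c1_a p * fQ c1 c1_a (p * g)) + 2 * (fQ c2 c2_a p * fQ c2 c2_a (p * g)) := by
    intro p; ring
  rw [Finset.sum_congr rfl (fun p _ => this p), Finset.sum_add_distrib, ← Finset.mul_sum,
    ← Finset.mul_sum, f1, f2]
  norm_num

end

noncomputable instance instAddQ (F K : Type) [Field F] [Fintype F] [Field K] [Fintype K]
    [Algebra F K] [DecidableEq F] [DecidableEq K] : Fintype (Additive (Q F K)) :=
  instFintypeQ F K

/-- block E3 -/
theorem singer (F K : Type) [Field F] [Fintype F] [Field K] [Fintype K]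
    [Algebra F K] (hF : ringChar F ≠ 2) (h3 : Module.finrank F K = 3) :
    ∃ (G : Type) (_ : AddCommGroup G) (_ : Fintype G) (_ : DecidableEq G) (a b : G → ℝ),
      Fintype.card G = Fintype.card F ^ 2 + Fintype.card F + 1 ∧
      (∀ g, a g = 1 ∨ a g = -1) ∧ (∀ g, b g = 1 ∨ b g = -1) ∧
      ∀ g, g ≠ 0 → ∑ x, (a x * a (x + g) + b x * b (x + g)) = 2 := by
  classical
  refine ⟨Additive (Q F K), inferInstance, instAddQ F K, Classical.decEq _,
    fun p => fQ c1 c1_a p.toMul + fQ c2 c2_a p.toMul,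
    fun p => fQ c1 c1_a p.toMul - fQ c2 c2_a p.toMul, ?_, ?_, ?_, ?_⟩
  · exact (card_Q F K h3).1
  · intro g
    obtain ⟨x, hx⟩ := QuotientGroup.mk_surjective g.toMul
    simp only [← hx]
    exact (val_cases (Algebra.trace F K ((x : K) ^ 2))).1
  · intro g
    obtain ⟨x, hx⟩ := QuotientGroup.mk_surjective g.toMul
    simp only [← hx]
    exact (val_cases (Algebra.trace F K ((x : K) ^ 2))).2
  · intro g hg
    have hg1 : g.toMul ≠ 1 := by
      intro h
      exact hg (by rw [← ofMul_toMul g, h]; rfl)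
    have h := singerQ (F := F) (K := K) hF h3 g.toMul hg1
    exact h

/-- for every odd prime power -/
theorem singer_pow (p k : ℕ) (hp : p.Prime) (h2 : p ≠ 2) (hk : 1 ≤ k) :
    ∃ (G : Type) (_ : AddCommGroup G) (_ : Fintype G) (_ : DecidableEq G) (a b : G → ℝ),
      Fintype.card G = (p ^ k) ^ 2 + p ^ k + 1 ∧
      (∀ g, a g = 1 ∨ a g = -1) ∧ (∀ g, b g = 1 ∨ b g = -1) ∧
      ∀ g, g ≠ 0 → ∑ x, (a x * a (x + g) + b x * b (x + g)) = 2 := by
  classical
  have : Fact p.Prime := ⟨hp⟩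
  have hk0 : k ≠ 0 := by omega
  let : Fintype (GaloisField p k) := Fintype.ofFinite _
  have : NeZero (3 : ℕ) := ⟨by norm_num⟩
  let : Fintype (FiniteField.Extension (GaloisField p k) p 3) := Fintype.ofFinite _
  have hK := FiniteField.finrank_extension (GaloisField p k) p 3
  have hcF : Fintype.card (GaloisField p k) = p ^ k := by
    rw [← Nat.card_eq_fintype_card]
    exact GaloisField.card p k hk0
  have hchar : ringChar (GaloisField p k) ≠ 2 := by
    rw [ringChar.eq (GaloisField p k) p]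
    exact h2
  have := singer (GaloisField p k) (FiniteField.Extension (GaloisField p k) p 3) hchar hK
  rw [hcF] at this
  exact this

end Pool.Agent.Lib_helper92.EW
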