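import Mathlib

namespace Pool.Agent.Lib_helper92.EW

open Finset

section

variable {G : Type} [AddCommGroup G] [Fintype G] [DecidableEq G]

/-- the number of ways to write `g` as a sum of two elements of `D` -/
def conv (D : Finset G) (g : G) : ℝ := ∑ u, (if u ∈ D then (1 : ℝ) else 0) * (if g - u ∈ D then 1 else 0)

theorem conv_card (D : Finset G) (g : G) :
    conv D g = ((D.filter (fun u => g - u ∈ D)).card : ℝ) := by
  unfold conv
  rw [Finset.card_filter]
  push_cast
  rw [← Finset.sum_filter_add_sum_filter_not Finset.univ (fun u => u ∈ D)]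
  have h1 : ∑ x ∈ Finset.univ.filter (fun u => ¬ u ∈ D),
      (if x ∈ D then (1 : ℝ) else 0) * (if g - x ∈ D then 1 else 0) = 0 := by
    refine Finset.sum_eq_zero ?_
    intro x hx
    rw [if_neg (Finset.mem_filter.1 hx).2, zero_mul]
  rw [h1, add_zero, Finset.filter_mem_eq_inter, Finset.univ_inter]
  refine Finset.sum_congr rfl ?_
  intro x hx
  rw [if_pos hx, one_mul]

/-- uniqueness of differences -/
theorem uniq (D : Finset G)
    (hD : ∀ g, g ≠ 0 → ∑ x, (if x ∈ D then (1 : ℝ) else 0) * (if x + g ∈ D then 1 else 0) = 1)
    {u v u' v' : G} (hu : u ∈ D) (hv : v ∈ D) (hu' : u' ∈ D) (hv' : v' ∈ D)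
    (hne : v ≠ u) (h : v - u = v' - u') : u = u' := by
  by_contra hcon
  have h1 := hD (v - u) (sub_ne_zero.2 hne)
  have h2 : (2 : ℝ) ≤ ∑ x, (if x ∈ D then (1 : ℝ) else 0) * (if x + (v - u) ∈ D then 1 else 0) := by
    have hsub : ({u, u'} : Finset G) ⊆ Finset.univ := Finset.subset_univ _
    have h3 := Finset.sum_le_sum_of_subset_of_nonneg hsub
      (f := fun x => (if x ∈ D then (1 : ℝ) else 0) * (if x + (v - u) ∈ D then 1 else 0))
      (by
        intro i _ _
        positivity)
    rw [Finset.sum_pair hcon] at h3
    have e1 : u + (v - u) = v := by abel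
    have e2 : u' + (v - u) = v' := by rw [h]; abel
    rw [e1, e2, if_pos hu, if_pos hv, if_pos hu', if_pos hv'] at h3
    linarith
  linarith

/-- the trichotomy -/
theorem conv_val (D : Finset G)
    (hD : ∀ g, g ≠ 0 → ∑ x, (if x ∈ D then (1 : ℝ) else 0) * (if x + g ∈ D then 1 else 0) = 1)
    (h2 : Function.Injective (fun x : G => x + x)) (g : G) :
    (conv D g = 1 ∧ ∃ u ∈ D, u + u = g) ∨
      ((conv D g = 0 ∨ conv D g = 2) ∧ ¬ ∃ u ∈ D, u + u = g) := by
  rw [conv_card]
  set T := D.filter (fun u => g - u ∈ D) with hT
  have key : ∀ u ∈ T, ∀ v ∈ T, v ≠ u → u = g - v := by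
    intro u hu v hv hne
    rw [hT, Finset.mem_filter] at hu hv
    refine uniq D hD hu.1 hv.1 hv.2 hu.2 hne ?_
    abel
  by_cases hex : ∃ u ∈ D, u + u = g
  · left
    obtain ⟨u, hu, hug⟩ := hex
    refine ⟨?_, u, hu, hug⟩
    have huT : u ∈ T := by
      rw [hT, Finset.mem_filter]
      refine ⟨hu, ?_⟩
      rw [← hug]
      simpa using hu
    have : T = {u} := by
      apply Finset.eq_singleton_iff_unique_mem.2
      refine ⟨huT, ?_⟩
      intro v hv
      by_contra hne
      have h1 := key u huT v hv hne
      apply hne
      have h3 : u + v = u + u := by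
        rw [hug]
        calc u + v = (g - v) + v := by rw [← h1]
          _ = g := by abel
      exact add_left_cancel h3
    rw [this, Finset.card_singleton]
    norm_num
  · right
    refine ⟨?_, hex⟩
    rcases T.eq_empty_or_nonempty with he | ⟨u, hu⟩
    · left
      rw [he]; simp
    · right
      have hu' := hu
      rw [hT, Finset.mem_filter] at hu'
      have hv : g - u ∈ T := by
        rw [hT, Finset.mem_filter]
        refine ⟨hu'.2, ?_⟩
        have : g - (g - u) = u := by abel
        rw [this]
        exact hu'.1
      have hne : g - u ≠ u := by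
        intro h
        apply hex
        refine ⟨u, hu'.1, ?_⟩
        calc u + u = (g - u) + u := by rw [h]
          _ = g := by abel
      have hT2 : T = {u, g - u} := by
        apply Finset.Subset.antisymm
        · intro v hv'
          rw [Finset.mem_insert, Finset.mem_singleton]
          by_cases hvu : v = u
          · exact Or.inl hvu
          · right
            have h1 := key u hu v hv' hvu
            rw [h1]
            abel
        · intro v hv'
          rw [Finset.mem_insert, Finset.mem_singleton] at hv'
          rcases hv' with h | h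
          · rw [h]; exact hu
          · rw [h]; exact hv
      rw [hT2, Finset.card_pair (Ne.symm hne)]
      norm_num

end

end Pool.Agent.Lib_helper92.EW
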