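import Mathlib
import Pool.Agent.Lib_helper92.EW.Planar

namespace Pool.Agent.Lib_helper92.EW

open Finset

section

variable {G : Type} [AddCommGroup G] [Fintype G] [DecidableEq G]

theorem conv_corr (δ : G → ℝ) (q : ℝ)
    (hR : ∀ h, ∑ x, δ x * δ (x + h) = 1 + (if h = 0 then q else 0)) (g : G) (hg : g ≠ 0) :
    ∑ x, (∑ u, δ u * δ (x - u)) * (∑ v, δ v * δ (x + g - v)) = (∑ x, δ x) ^ 2 + q := by
  have h1 : ∀ x, (∑ u, δ u * δ (x - u)) * (∑ v, δ v * δ (x + g - v))
      = ∑ u, ∑ v, (δ u * δ v) * (δ (x - u) * δ (x + g - v)) := by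
    intro x
    rw [Finset.sum_mul_sum]
    refine Finset.sum_congr rfl fun u _ => Finset.sum_congr rfl fun v _ => ?_
    ring
  rw [Finset.sum_congr rfl fun x _ => h1 x, Finset.sum_comm]
  have h2 : ∀ u, ∑ x, ∑ v, (δ u * δ v) * (δ (x - u) * δ (x + g - v))
      = ∑ v, (δ u * δ v) * (1 + (if v = u + g then q else 0)) := by
    intro u
    rw [Finset.sum_comm]
    refine Finset.sum_congr rfl fun v _ => ?_
    rw [← Finset.mul_sum]
    congr 1
    have h3 : ∑ x, δ (x - u) * δ (x + g - v) = ∑ y, δ y * δ (y + (g + u - v)) := by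
      rw [← Equiv.sum_comp (Equiv.subRight u) (fun y => δ y * δ (y + (g + u - v)))]
      refine Finset.sum_congr rfl fun x _ => ?_
      simp only [Equiv.subRight_apply]
      congr 2
      abel
    rw [h3, hR]
    congr 1
    have h4 : (g + u - v = 0) ↔ (v = u + g) := by
      rw [sub_eq_zero]
      constructor
      · intro h; rw [← h]; abel
      · intro h; rw [h]; abel
    simp only [h4]
  rw [Finset.sum_congr rfl fun u _ => h2 u]
  have h5 : ∀ u, ∑ v, (δ u * δ v) * (1 + (if v = u + g then q else 0))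
      = δ u * (∑ v, δ v) + q * (δ u * δ (u + g)) := by
    intro u
    have h6 : ∀ v, (δ u * δ v) * (1 + (if v = u + g then q else 0))
        = δ u * δ v + (if v = u + g then q * (δ u * δ v) else 0) := by
      intro v
      split_ifs <;> ring
    rw [Finset.sum_congr rfl fun v _ => h6 v, Finset.sum_add_distrib, ← Finset.mul_sum,
      Finset.sum_ite_eq' Finset.univ (u + g) (fun v => q * (δ u * δ v))]
    simp
  rw [Finset.sum_congr rfl fun u _ => h5 u, Finset.sum_add_distrib, ← Finset.sum_mul,
    ← Finset.mul_sum, hR, if_neg hg]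
  ring

theorem conv_sum (δ : G → ℝ) : ∑ x, ∑ u, δ u * δ (x - u) = (∑ x, δ x) ^ 2 := by
  rw [Finset.sum_comm, sq, Finset.sum_mul]
  refine Finset.sum_congr rfl fun u _ => ?_
  rw [← Finset.mul_sum]
  congr 1
  exact Equiv.sum_comp (Equiv.subRight u) δ

/-- from an abelian planar difference set to a pair of sign functions -/
theorem planar (q : ℕ) (D : Finset G) (hG : Fintype.card G = q ^ 2 + q + 1)
    (hk : D.card = q + 1)
    (hD : ∀ g, g ≠ 0 → ∑ x, (if x ∈ D then (1 : ℝ) else 0) * (if x + g ∈ D then 1 else 0) = 1)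
    (h2 : Function.Injective (fun x : G => x + x)) :
    ∃ a b : G → ℝ, (∀ g, a g = 1 ∨ a g = -1) ∧ (∀ g, b g = 1 ∨ b g = -1) ∧
      ∀ g, g ≠ 0 → ∑ x, (a x * a (x + g) + b x * b (x + g)) = 2 := by
  classical
  set δ : G → ℝ := fun x => if x ∈ D then (1 : ℝ) else 0 with hδ
  set t : G → ℝ := fun x => if ∃ u ∈ D, u + u = x then (1 : ℝ) else 0 with ht
  have hsum : ∑ x, δ x = (q : ℝ) + 1 := by
    rw [hδ]
    simp only [Finset.sum_boole, Finset.filter_mem_eq_inter, Finset.univ_inter, hk]
    push_cast
    ring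
  have hR : ∀ h, ∑ x, δ x * δ (x + h) = 1 + (if h = 0 then (q : ℝ) else 0) := by
    intro h
    by_cases h0 : h = 0
    · subst h0
      rw [if_pos rfl]
      have : ∀ x : G, δ x * δ (x + 0) = δ x := by
        intro x
        rw [add_zero, hδ]
        simp
      rw [Finset.sum_congr rfl fun x _ => this x, hsum]
      ring
    · rw [if_neg h0, add_zero]
      exact hD h h0
  have hconv : ∀ x, conv D x = ∑ u, δ u * δ (x - u) := fun x => rfl
  refine ⟨fun x => (conv D x - 1) + t x, fun x => (conv D x - 1) - t x, ?_, ?_, ?_⟩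
  · intro x
    rcases conv_val D hD h2 x with ⟨h, hex⟩ | ⟨h, hex⟩
    · left
      simp only [ht, h, if_pos hex]; norm_num
    · rcases h with h | h
      · right; simp only [ht, h, if_neg hex]; norm_num
      · left; simp only [ht, h, if_neg hex]; norm_num
  · intro x
    rcases conv_val D hD h2 x with ⟨h, hex⟩ | ⟨h, hex⟩
    · right
      simp only [ht, h, if_pos hex]; norm_num
    · rcases h with h | h
      · right; simp only [ht, h, if_neg hex]; norm_num
      · left; simp only [ht, h, if_neg hex]; norm_num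
  · intro g hg
    have e1 := conv_corr δ (q : ℝ) hR g hg
    have e2 := conv_sum δ
    have e3 : ∑ x, conv D (x + g) = (∑ x, δ x) ^ 2 := by
      rw [← e2]
      exact Equiv.sum_comp (Equiv.addRight g) (conv D)
    -- the t part
    let e : G ≃ G := Equiv.ofBijective (fun x : G => x + x) (Finite.injective_iff_bijective.1 h2)
    obtain ⟨h, hh⟩ := (Finite.injective_iff_bijective.1 h2).2 g
    have hh' : h + h = g := hh
    have hne : h ≠ 0 := by
      rintro rfl
      apply hg
      rw [← hh', add_zero]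
    have ht2 : ∀ y : G, t (y + y) = δ y := by
      intro y
      by_cases hy : y ∈ D
      · have : ∃ u ∈ D, u + u = y + y := ⟨y, hy, rfl⟩
        simp only [ht, hδ, if_pos hy, if_pos this]
      · have : ¬ ∃ u ∈ D, u + u = y + y := by
          rintro ⟨u, hu, huy⟩
          exact hy (h2 huy ▸ hu)
        simp only [ht, hδ, if_neg hy, if_neg this]
    have e4 : ∑ x, t x * t (x + g) = 1 := by
      rw [← Equiv.sum_comp e (fun x => t x * t (x + g))]
      have : ∀ y : G, t (e y) * t (e y + g) = δ y * δ (y + h) := by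
        intro y
        have e5 : e y = y + y := rfl
        have e6 : y + y + g = (y + h) + (y + h) := by rw [← hh']; abel
        rw [e5, e6, ht2, ht2]
      rw [Finset.sum_congr rfl fun y _ => this y, hR, if_neg hne, add_zero]
    have e7 : ∀ x : G, ((conv D x - 1) + t x) * ((conv D (x + g) - 1) + t (x + g))
        + ((conv D x - 1) - t x) * ((conv D (x + g) - 1) - t (x + g))
        = 2 * (conv D x * conv D (x + g)) - 2 * conv D x - 2 * conv D (x + g) + 2
          + 2 * (t x * t (x + g)) := by
      intro x; ring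
    rw [Finset.sum_congr rfl fun x _ => e7 x, Finset.sum_add_distrib, Finset.sum_add_distrib,
      Finset.sum_sub_distrib, Finset.sum_sub_distrib, ← Finset.mul_sum, ← Finset.mul_sum,
      ← Finset.mul_sum, ← Finset.mul_sum, e4, e3]
    have e8 : ∑ x, conv D x * conv D (x + g) = (∑ x, δ x) ^ 2 + q := e1
    have e9 : ∑ x, conv D x = (∑ x, δ x) ^ 2 := e2
    rw [e8, e9, hsum, Finset.sum_const, Finset.card_univ, hG, nsmul_eq_mul]
    push_cast
    ring

end

end Pool.Agent.Lib_helper92.EW
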