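import Pool.Agent.Lib_helper97.SN.Grp
import Pool.Agent.Lib_helper92.EW.Final
import Pool.Agent.Lib_helper92.EW.Planar2

namespace Pool.Agent.Lib_helper92.EW

open Finset

section

variable {F K : Type} [Field F] [Fintype F] [DecidableEq F] [Field K] [Fintype K] [DecidableEq K]
  [Algebra F K]

theorem HQ_sum (h3 : Module.finrank F K = 3) (φ : F → ℝ)
    (hφ2 : ∀ c : F, c ≠ 0 → ∀ t s, φ (c * t) * φ (c * s) = φ t * φ s)
    (δ : K) (hδ : ∀ c : F, algebraMap F K c ≠ δ) :
    ((Fintype.card F : ℝ) - 1) * ∑ p : Q F K, HQ φ hφ2 δ p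
      = (Fintype.card F : ℝ) * (∑ t : F, φ t) ^ 2 - φ 0 ^ 2 := by
  classical
  obtain ⟨hQ1, hQ2⟩ := card_Q F K h3
  have h5 : 1 ≤ Fintype.card F := Fintype.card_pos
  have h4 := sum_hom (QuotientGroup.mk' (S F K)) (QuotientGroup.mk'_surjective _)
    (Fintype.card F - 1) hQ2 (fun p => HQ φ hφ2 δ p)
  rw [Nat.cast_sub h5, Nat.cast_one] at h4
  rw [← h4]
  have h6 : ∑ x : Kˣ, HQ φ hφ2 δ ((QuotientGroup.mk' (S F K)) x)
      = ∑ x : Kˣ, (fun z : K => φ (Algebra.trace F K z)
        * φ (Algebra.trace F K (δ * z))) (x : K) := rfl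
  rw [h6]
  have h9 := sum_units (K := K) (fun z : K => φ (Algebra.trace F K z)
        * φ (Algebra.trace F K (δ * z)))
  refine Eq.trans (Eq.trans (Finset.sum_congr rfl (fun _ _ => rfl)) h9) ?_
  have h7 := fib h3 δ hδ (fun y => φ y.1 * φ y.2)
  simp only at h7 ⊢
  rw [h7, map_zero, mul_zero, map_zero]
  have h8 : ∑ y : F × F, φ y.1 * φ y.2 = (∑ t : F, φ t) ^ 2 := by
    rw [Fintype.sum_prod_type, sq, Finset.sum_mul_sum]
  rw [h8]
  ring

/-- the line `Tr = 0` as a function on the quotient -/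
noncomputable def fD : Q F K → ℝ :=
  Quotient.lift (fun x : Kˣ => (c2 (Algebra.trace F K (x : K)) : ℝ)) (by
    intro x y hxy
    have h1 : x⁻¹ * y ∈ S F K := QuotientGroup.leftRel_apply.1 hxy
    obtain ⟨c, hc⟩ := h1
    have h2 : (y : K) = algebraMap F K (c : F) * (x : K) := by
      have h3 : y = x * (Units.map (algebraMap F K : F →* K)) c := by
        rw [hc]; group
      rw [h3]
      simp [mul_comm]
    show c2 (Algebra.trace F K (x : K)) = c2 (Algebra.trace F K (y : K))
    have h4 : Algebra.trace F K (y : K) = (c : F) * Algebra.trace F K (x : K) := by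
      rw [h2, ← Algebra.smul_def, map_smul, smul_eq_mul]
    rw [h4]
    unfold c2
    simp)

theorem fD_val (p : Q F K) : fD p = 0 ∨ fD p = 1 := by
  obtain ⟨x, rfl⟩ := QuotientGroup.mk_surjective p
  show (c2 (Algebra.trace F K (x : K)) : ℝ) = 0 ∨ (c2 (Algebra.trace F K (x : K)) : ℝ) = 1
  unfold c2
  by_cases h : Algebra.trace F K (x : K) = 0
  · simp [h]
  · simp [h]

theorem fD_corr (h3 : Module.finrank F K = 3) (g : Q F K) (hg : g ≠ 1) :
    ∑ p : Q F K, fD p * fD (p * g) = 1 := by
  obtain ⟨γ, rfl⟩ := QuotientGroup.mk_surjective g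
  have h1 : ∀ p : Q F K, fD p * fD (p * (QuotientGroup.mk γ)) = HQ c2 c2_b (γ : K) p := by
    intro p
    obtain ⟨x, rfl⟩ := QuotientGroup.mk_surjective p
    show (c2 (Algebra.trace F K (x : K)) : ℝ) * c2 (Algebra.trace F K ((x * γ : Kˣ) : K))
      = c2 (Algebra.trace F K (x : K)) * c2 (Algebra.trace F K ((γ : K) * (x : K)))
    have : ((x * γ : Kˣ) : K) = (γ : K) * (x : K) := by push_cast; ring
    rw [this]
  rw [Finset.sum_congr rfl fun p _ => h1 p]
  have hδ : ∀ c : F, algebraMap F K c ≠ (γ : K) := by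
    intro c hc
    have hc0 : c ≠ 0 := by
      rintro rfl
      rw [map_zero] at hc
      exact γ.ne_zero hc.symm
    apply hg
    refine (QuotientGroup.eq_one_iff _).2 ?_
    refine ⟨Units.mk0 c hc0, ?_⟩
    apply Units.ext
    simp [hc]
  have e2 := HQ_sum h3 (c2 : F → ℝ) c2_b (γ : K) hδ
  rw [c2_sum] at e2
  have z2 : (c2 (0 : F)) = 1 := by unfold c2; simp
  rw [z2] at e2
  have hq : (1 : ℝ) < (Fintype.card F : ℝ) := by exact_mod_cast Fintype.one_lt_card
  have hq' : (Fintype.card F : ℝ) - 1 ≠ 0 := by linarith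
  have : ((Fintype.card F : ℝ) - 1) * ∑ p : Q F K, HQ c2 c2_b (γ : K) p
      = ((Fintype.card F : ℝ) - 1) * 1 := by
    rw [e2]; ring
  exact mul_left_cancel₀ hq' this

end

theorem singer_all (F K : Type) [Field F] [Fintype F] [Field K] [Fintype K]
    [Algebra F K] (h3 : Module.finrank F K = 3) :
    ∃ (G : Type) (_ : AddCommGroup G) (_ : Fintype G) (_ : DecidableEq G) (a b : G → ℝ),
      Fintype.card G = Fintype.card F ^ 2 + Fintype.card F + 1 ∧
      (∀ g, a g = 1 ∨ a g = -1) ∧ (∀ g, b g = 1 ∨ b g = -1) ∧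
      ∀ g, g ≠ 0 → ∑ x, (a x * a (x + g) + b x * b (x + g)) = 2 := by
  classical
  obtain ⟨hQ1, hQ2⟩ := card_Q F K h3
  have hodd : (Nat.card (Q F K)).Coprime 2 := by
    rw [Nat.card_eq_fintype_card, hQ1, Nat.coprime_two_right]
    have : Even (Fintype.card F ^ 2 + Fintype.card F) := by
      have := Nat.even_mul_succ_self (Fintype.card F)
      have h8 : Fintype.card F ^ 2 + Fintype.card F
        = Fintype.card F * (Fintype.card F + 1) := by ring
      rw [h8]; exact this
    exact Even.add_one this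
  set G := Additive (Q F K) with hGdef
  set D : Finset G := Finset.univ.filter (fun p => fD (F := F) (K := K) p.toMul = 1) with hD
  have hind : ∀ p : G, (if p ∈ D then (1 : ℝ) else 0) = fD (F := F) (K := K) p.toMul := by
    intro p
    by_cases hp : fD (F := F) (K := K) p.toMul = 1
    · have : p ∈ D := by rw [hD, Finset.mem_filter]; exact ⟨Finset.mem_univ _, hp⟩
      rw [if_pos this, hp]
    · have : ¬ p ∈ D := by rw [hD, Finset.mem_filter]; exact fun h => hp h.2
      rw [if_neg this]
      rcases fD_val (F := F) (K := K) p.toMul with h | h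
      · rw [h]
      · exact absurd h hp
  have hcorr : ∀ g : G, g ≠ 0 →
      ∑ x, (if x ∈ D then (1 : ℝ) else 0) * (if x + g ∈ D then 1 else 0) = 1 := by
    intro g hg
    have hg1 : g.toMul ≠ 1 := by
      intro h
      exact hg (by rw [← ofMul_toMul g, h]; rfl)
    rw [Finset.sum_congr rfl fun x _ => by rw [hind x, hind (x + g)]]
    exact fD_corr h3 g.toMul hg1
  have hcardG : Fintype.card G = Fintype.card F ^ 2 + Fintype.card F + 1 := hQ1
  have hDcard : D.card = Fintype.card F + 1 := by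
    -- double counting
    have h1 : ∑ g : G, ∑ x : G, (if x ∈ D then (1 : ℝ) else 0) * (if x + g ∈ D then 1 else 0)
        = (D.card : ℝ) ^ 2 := by
      rw [Finset.sum_comm]
      have h2 : ∀ x : G, ∑ g : G, (if x ∈ D then (1 : ℝ) else 0) * (if x + g ∈ D then 1 else 0)
          = (if x ∈ D then (1 : ℝ) else 0) * (D.card : ℝ) := by
        intro x
        rw [← Finset.mul_sum]
        congr 1
        have h9 := Equiv.sum_comp (Equiv.addLeft x) (fun y : G => if y ∈ D then (1 : ℝ) else 0)
        have h10 : ∑ y : G, (if y ∈ D then (1 : ℝ) else 0) = (D.card : ℝ) := by simp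
        rw [← h10]
        exact h9
      rw [Finset.sum_congr rfl fun x _ => h2 x, ← Finset.sum_mul]
      simp [sq]
    have h3' : ∑ g : G, ∑ x : G, (if x ∈ D then (1 : ℝ) else 0) * (if x + g ∈ D then 1 else 0)
        = (D.card : ℝ) + ((Fintype.card G : ℝ) - 1) := by
      rw [← Finset.add_sum_erase Finset.univ _ (Finset.mem_univ (0 : G))]
      congr 1
      · have : ∀ x : G, (if x ∈ D then (1 : ℝ) else 0) * (if x + 0 ∈ D then 1 else 0)
            = if x ∈ D then (1 : ℝ) else 0 := by
          intro x; rw [add_zero]; split_ifs <;> simp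
        rw [Finset.sum_congr rfl fun x _ => this x]
        simp
      · rw [Finset.sum_congr rfl fun g hg => hcorr g (Finset.mem_erase.1 hg).1, Finset.sum_const,
          Finset.card_erase_of_mem (Finset.mem_univ _), Finset.card_univ, nsmul_eq_mul, mul_one,
          Nat.cast_sub Fintype.card_pos, Nat.cast_one]
    rw [h1, hcardG] at h3'
    have h4 : (D.card : ℝ) ^ 2 = D.card + (Fintype.card F ^ 2 + Fintype.card F) := by
      rw [h3']; push_cast; ring
    have h5 : ((D.card : ℝ) - (Fintype.card F + 1)) * (D.card + Fintype.card F) = 0 := by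
      linear_combination h4
    have hpos : (0 : ℝ) < (D.card : ℝ) + Fintype.card F := by
      have : (0 : ℝ) < (Fintype.card F : ℝ) := by exact_mod_cast Fintype.card_pos
      positivity
    rcases mul_eq_zero.1 h5 with h | h
    · have : (D.card : ℝ) = ((Fintype.card F + 1 : ℕ) : ℝ) := by push_cast; linarith
      exact_mod_cast this
    · exact absurd h hpos.ne'
  have hinj : Function.Injective (fun x : G => x + x) := by
    intro x y hxy
    have h1 := (powCoprime hodd).injective
    apply h1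
    show (x.toMul) ^ 2 = (y.toMul) ^ 2
    rw [sq, sq]
    exact hxy
  obtain ⟨a, b, ha, hb, h⟩ := planar (Fintype.card F) D hcardG hDcard hcorr hinj
  exact ⟨G, inferInstance, inferInstance, inferInstance, a, b, hcardG, ha, hb, h⟩

/-- for every prime power -/
theorem singer_pow_all (p k : ℕ) (hp : p.Prime) (hk : 1 ≤ k) :
    ∃ (G : Type) (_ : AddCommGroup G) (_ : Fintype G) (_ : DecidableEq G) (a b : G → ℝ),
      Fintype.card G = (p ^ k) ^ 2 + p ^ k + 1 ∧
      (∀ g, a g = 1 ∨ a g = -1) ∧ (∀ g, b g = 1 ∨ b g = -1) ∧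
      ∀ g, g ≠ 0 → ∑ x, (a x * a (x + g) + b x * b (x + g)) = 2 := by
  classical
  have : Fact p.Prime := ⟨hp⟩
  have hk0 : k ≠ 0 := by omega
  let : Fintype (GaloisField p k) := Fintype.ofFinite _
  have : NeZero (3 : ℕ) := ⟨by norm_num⟩
  let : Fintype (FiniteField.Extension (GaloisField p k) p 3) := Fintype.ofFinite _
  have hK := FiniteField.finrank_extension (GaloisField p k) p 3
  have hcF : Fintype.card (GaloisField p k) = p ^ k := by
    rw [← Nat.card_eq_fintype_card]
    exact GaloisField.card p k hk0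
  have := singer_all (GaloisField p k) (FiniteField.Extension (GaloisField p k) p 3) hK
  rw [hcF] at this
  exact this

open Pool.Agent.Results.MP_c77999_an.StrictMono in
/-- Q1 for `n = 2 (q ^ 2 + q + 1)`, `q = p ^ k` any prime power -/
theorem q1_all (p k : ℕ) (hp : p.Prime) (hk : 1 ≤ k) :
    Real.sqrt (2 * (((p ^ k) ^ 2 + p ^ k + 1 : ℕ) : ℝ) - 1) < r (2 * ((p ^ k) ^ 2 + p ^ k + 1)) := by
  obtain ⟨G, _, _, _, a, b, hc, ha, hb, h⟩ := singer_pow_all p k hp hk
  have hq : 0 < p ^ k := pow_pos hp.pos k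
  exact Pool.Agent.Lib_helper97.SN.ew_group ((p ^ k) ^ 2 + p ^ k + 1) hc (by nlinarith) a b ha hb h

end Pool.Agent.Lib_helper92.EW
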